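import Mathlib
import Pool.Agent.H50.RatTwo

set_option autoImplicit false

/-! # Rational 2-groups: the order is bounded by `|X|` and `|C_G(X)|` for every subgroup `X` -/

namespace Pool.Agent.H82.R2

open Subgroup

/-- A `p`-group `X` of inner automorphisms normalising a nontrivial finite `p`-subgroup `K` has a nontrivial
fixed point in `K`. -/
lemma exists_fix {G : Type} [Group G] [Finite G] {p : ℕ} [Fact p.Prime] (hp : IsPGroup p G)
    (X K : Subgroup G) (hK : ∀ x ∈ X, ∀ k ∈ K, x * k * x⁻¹ ∈ K) (hne : K ≠ ⊥) :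
    ∃ k ∈ K, k ≠ 1 ∧ ∀ x ∈ X, x * k = k * x := by
  classical
  let act : MulAction X K :=
    { smul := fun x k => ⟨x * k * (x : G)⁻¹, hK x x.2 k k.2⟩
      one_smul := fun k => Subtype.ext (by
        show ((1 : X) : G) * k * ((1 : X) : G)⁻¹ = k
        simp)
      mul_smul := fun x y k => Subtype.ext (by
        show ((x * y : X) : G) * k * ((x * y : X) : G)⁻¹ = x * (y * k * (y : G)⁻¹) * (x : G)⁻¹
        push_cast
        group) }
  have hX : IsPGroup p X := hp.to_subgroup _
  have hcard : p ∣ Nat.card K := by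
    have h1 : IsPGroup p K := hp.to_subgroup _
    obtain ⟨n, hn⟩ := IsPGroup.iff_card.mp h1
    rw [hn]
    refine dvd_pow_self p ?_
    rintro rfl
    rw [pow_zero] at hn
    exact hne (Subgroup.card_eq_one.mp hn)
  have h1 : (1 : K) ∈ MulAction.fixedPoints X K := by
    intro x
    refine Subtype.ext ?_
    show (x : G) * ((1 : K) : G) * (x : G)⁻¹ = ((1 : K) : G)
    simp
  obtain ⟨k, hk, hk1⟩ := hX.exists_fixed_point_of_prime_dvd_card_of_fixed_point K hcard h1
  refine ⟨k, k.2, fun h => hk1 (Subtype.ext h.symm), fun x hx => ?_⟩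
  have h2 := congrArg Subtype.val (hk ⟨x, hx⟩)
  have h3 : x * (k : G) * x⁻¹ = k := h2
  rw [mul_inv_eq_iff_eq_mul] at h3
  exact h3

/-- The size of an elementary abelian normal subgroup. -/
lemma card_elem {G : Type} [Group G] [Finite G] (hp : IsPGroup 2 G) (X V : Subgroup G) (hVn : V.Normal)
    (hV : ∀ a ∈ V, ∀ b ∈ V, a * b = b * a) (hV2 : ∀ a ∈ V, a ^ 2 = 1) :
    Nat.card V ≤ (Nat.card (centralizer (X : Set G))) ^ (Nat.card X) := by
  classical
  have : Fact (Nat.Prime 2) := ⟨Nat.prime_two⟩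
  let W : Subgroup G := V ⊓ centralizer (X : Set G)
  let _ : CommGroup V := { (inferInstance : Group V) with
    mul_comm := fun x y => Subtype.ext (hV x x.2 y y.2) }
  let _ : CommGroup W := { (inferInstance : Group W) with
    mul_comm := fun x y => Subtype.ext (hV x x.2.1 y y.2.1) }
  let _ : Module (ZMod 2) (Additive V) := AddCommGroup.zmodModule (n := 2) (fun x => by
    show Additive.ofMul ((Additive.toMul x) ^ 2) = 0
    have : (Additive.toMul x) ^ 2 = 1 := Subtype.ext (hV2 _ (Additive.toMul x).2)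
    rw [this]; rfl)
  let _ : Module (ZMod 2) (Additive W) := AddCommGroup.zmodModule (n := 2) (fun x => by
    show Additive.ofMul ((Additive.toMul x) ^ 2) = 0
    have : (Additive.toMul x) ^ 2 = 1 := Subtype.ext (hV2 _ (Additive.toMul x).2.1)
    rw [this]; rfl)
  let i0 : W →* V := Subgroup.inclusion inf_le_left
  let i : Additive W →ₗ[ZMod 2] Additive V := (MonoidHom.toAdditive i0).toZModLinearMap 2
  have hi : LinearMap.ker i = ⊥ := by
    rw [LinearMap.ker_eq_bot]
    intro a b hab
    exact Subgroup.inclusion_injective (show W ≤ V from inf_le_left) hab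
  obtain ⟨g, hg⟩ := LinearMap.exists_leftInverse_of_injective i hi
  let g0 : V →* W := MonoidHom.toAdditive.symm g.toAddMonoidHom
  have hg0 : ∀ w : W, g0 (i0 w) = w := by
    intro w
    have := LinearMap.congr_fun hg (Additive.ofMul w)
    exact congrArg Additive.toMul this
  let cj : G → V → V := fun x v => ⟨x * v * x⁻¹, hVn.conj_mem v v.2 x⟩
  have cj_mul : ∀ x v w, cj x (v * w) = cj x v * cj x w := by
    intro x v w
    refine Subtype.ext ?_
    show x * ((v * w : V) : G) * x⁻¹ = (x * v * x⁻¹) * (x * w * x⁻¹)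
    push_cast
    group
  let F : V →* (X → W) :=
    { toFun := fun v x => g0 (cj x v)
      map_one' := by
        funext x
        have : cj x 1 = 1 := Subtype.ext (by show (x : G) * ((1 : V) : G) * (x : G)⁻¹ = ((1 : V) : G); simp)
        show g0 (cj x 1) = 1
        rw [this, map_one]
      map_mul' := by
        intro v w
        funext x
        show g0 (cj x (v * w)) = g0 (cj x v) * g0 (cj x w)
        rw [cj_mul, map_mul] }
  have hF : Function.Injective F := by
    rw [injective_iff_map_eq_one]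
    by_contra hcon
    push Not at hcon
    obtain ⟨v0, hv0, hv1⟩ := hcon
    let K : Subgroup G := F.ker.map V.subtype
    have hK : ∀ x ∈ X, ∀ k ∈ K, x * k * x⁻¹ ∈ K := by
      rintro x hx _ ⟨v, hv, rfl⟩
      refine ⟨cj x v, ?_, rfl⟩
      have hv' : F v = 1 := hv
      show F (cj x v) = 1
      funext y
      have h1 : cj y (cj x v) = cj ((y : G) * x) v := by
        refine Subtype.ext ?_
        show (y : G) * (x * v * x⁻¹) * (y : G)⁻¹ = (y * x) * v * (y * x)⁻¹
        group
      have h2 : g0 (cj ((y : G) * x) v) = 1 := congrFun hv' (y * ⟨x, hx⟩ : X)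
      show g0 (cj y (cj x v)) = 1
      rw [h1, h2]
    have hne : K ≠ ⊥ := by
      intro h
      have h1 : (v0 : G) ∈ K := ⟨v0, hv0, rfl⟩
      rw [h, mem_bot] at h1
      exact hv1 (Subtype.ext h1)
    obtain ⟨k, ⟨v, hv, rfl⟩, hk1, hkx⟩ := exists_fix hp X K hK hne
    have hvW : (v : G) ∈ W := by
      exact ⟨v.2, mem_centralizer_iff.2 hkx⟩
    have hv' : F v = 1 := hv
    have h1 : g0 (cj ((1 : X) : G) v) = 1 := congrFun hv' 1
    have h2 : cj ((1 : X) : G) v = i0 ⟨v, hvW⟩ := Subtype.ext (by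
      show ((1 : X) : G) * v * ((1 : X) : G)⁻¹ = v
      simp)
    rw [h2, hg0] at h1
    exact hk1 (congrArg Subtype.val h1)
  have h3 : Nat.card V ≤ Nat.card (X → W) := Nat.card_le_card_of_injective F hF
  rw [Nat.card_fun] at h3
  refine h3.trans (Nat.pow_le_pow_left ?_ _)
  exact Nat.card_mono (Set.toFinite _) inf_le_right

/-- An abelian normal subgroup is generated by few elements. -/
lemma gen_abelian {G : Type} [Group G] [Finite G] (hp : IsPGroup 2 G) (X A : Subgroup G) (hAn : A.Normal)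
    (hA : ∀ a ∈ A, ∀ b ∈ A, a * b = b * a) (r : ℕ)
    (hr : (Nat.card (centralizer (X : Set G))) ^ (Nat.card X) ≤ r) :
    ∃ b : Fin r → G, closure (Set.range b) = A := by
  classical
  have : Fact (Nat.Prime 2) := ⟨Nat.prime_two⟩
  let _ : CommGroup A := { (inferInstance : Group A) with
    mul_comm := fun x y => Subtype.ext (hA x x.2 y y.2) }
  -- the involutions of `A`
  let V : Subgroup G := (powMonoidHom 2 : A →* A).ker.map A.subtype
  have hVm : ∀ a, a ∈ V ↔ a ∈ A ∧ a ^ 2 = 1 := by
    intro a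
    constructor
    · rintro ⟨v, hv, rfl⟩
      have hv' : v ^ 2 = 1 := hv
      exact ⟨v.2, congrArg Subtype.val hv'⟩
    · rintro ⟨h1, h2⟩
      exact ⟨⟨a, h1⟩, Subtype.ext h2, rfl⟩
  have hVn : V.Normal := by
    constructor
    intro a ha g
    rw [hVm] at ha ⊢
    refine ⟨hAn.conj_mem a ha.1 g, ?_⟩
    rw [conj_pow, ha.2, mul_one, mul_inv_cancel]
  have hV := card_elem hp X V hVn (fun a ha b hb => hA a ((hVm a).1 ha).1 b ((hVm b).1 hb).1)
    (fun a ha => ((hVm a).1 ha).2)
  have hVc : Nat.card V = Nat.card (powMonoidHom 2 : A →* A).ker :=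
    Nat.card_congr (Subgroup.equivMapOfInjective _ _ A.subtype_injective).symm.toEquiv
  -- `A / A²` has the same order
  set S : Subgroup A := (powMonoidHom 2 : A →* A).range with hS
  have hidx : Nat.card (A ⧸ S) = Nat.card (powMonoidHom 2 : A →* A).ker := by
    have h1 : Nat.card A = Nat.card (A ⧸ S) * Nat.card S := Subgroup.card_eq_card_quotient_mul_card_subgroup S
    have h2 : Nat.card A = Nat.card S * Nat.card (powMonoidHom 2 : A →* A).ker := by
      rw [hS, ← Subgroup.index_ker, mul_comm, Subgroup.card_mul_index]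
    have h3 : 0 < Nat.card S := Nat.card_pos
    rw [h1, mul_comm] at h2
    exact Nat.eq_of_mul_eq_mul_left h3 h2
  have hle : Nat.card (A ⧸ S) ≤ r := by
    rw [hidx, ← hVc]
    exact hV.trans hr
  -- representatives
  have hfin : Finite (A ⧸ S) := inferInstance
  let eq := Finite.equivFin (A ⧸ S)
  let rep : Fin r → A := fun j => if h : (j : ℕ) < Nat.card (A ⧸ S) then (eq.symm ⟨j, h⟩).out else 1
  refine ⟨fun j => (rep j : G), ?_⟩
  have hcl : closure (Set.range rep) = ⊤ := by
    set H := closure (Set.range rep) with hH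
    have hHS : ∀ a : A, ∃ h ∈ H, ∃ c : A, a = h * c ^ 2 := by
      intro a
      let q : A ⧸ S := (a : A ⧸ S)
      have hlt : ((eq q : Fin _) : ℕ) < Nat.card (A ⧸ S) := (eq q).2
      have hrep : rep ⟨eq q, hlt.trans_le hle⟩ = q.out := by
        show (if h : ((eq q : Fin _) : ℕ) < Nat.card (A ⧸ S) then (eq.symm ⟨eq q, h⟩).out else 1) = q.out
        rw [dif_pos hlt]
        congr 1
        exact eq.symm_apply_apply q
      have hout : ((q.out : A) : A ⧸ S) = (a : A ⧸ S) := Quotient.out_eq' q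
      obtain ⟨c, hc⟩ : (q.out : A)⁻¹ * a ∈ S := QuotientGroup.eq.1 hout
      refine ⟨q.out, ?_, c, ?_⟩
      · rw [← hrep]
        exact subset_closure ⟨_, rfl⟩
      · have hc' : c ^ 2 = (q.out : A)⁻¹ * a := hc
        rw [hc', mul_inv_cancel_left]
    -- iterate
    have hit : ∀ k : ℕ, ∀ a : A, ∃ h ∈ H, ∃ c : A, a = h * c ^ (2 ^ k) := by
      intro k
      induction k with
      | zero => exact fun a => ⟨1, one_mem _, a, by simp⟩
      | succ k ih =>
        intro a
        obtain ⟨h, hh, c, rfl⟩ := ih a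
        obtain ⟨h', hh', c', rfl⟩ := hHS c
        refine ⟨h * h' ^ (2 ^ k), mul_mem hh (pow_mem hh' _), c', ?_⟩
        rw [mul_pow, ← pow_mul, mul_assoc, pow_succ 2 k, mul_comm 2 (2 ^ k)]
    rw [eq_top_iff]
    intro a _
    obtain ⟨n, hn⟩ := IsPGroup.iff_card.mp (hp.to_subgroup A)
    obtain ⟨h, hh, c, rfl⟩ := hit n a
    have hc : c ^ (2 ^ n) = 1 := by rw [← hn]; exact pow_card_eq_one'
    rw [hc, mul_one]
    exact hh
  have h4 : (closure (Set.range rep)).map A.subtype = A := by
    rw [hcl, ← MonoidHom.range_eq_map, Subgroup.range_subtype]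
  rw [MonoidHom.map_closure, ← Set.range_comp] at h4
  exact h4

/-- **The bound.** -/
theorem card_le {G : Type} [Group G] [Finite G] (hp : IsPGroup 2 G) (h3 : ∀ x : G, IsConj x (x ^ 3))
    (X : Subgroup G) (m n : ℕ) (hm : Nat.card X ≤ m) (hn : Nat.card (centralizer (X : Set G)) ≤ n) :
    Nat.card G ≤ ((Pool.Agent.H50.RatTwo.vand (n ^ m)).natAbs ^ (n ^ m)) *
      ((Pool.Agent.H50.RatTwo.vand (n ^ m)).natAbs ^ (n ^ m)) ^
        ((Pool.Agent.H50.RatTwo.vand (n ^ m)).natAbs ^ (n ^ m)) := by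
  refine Pool.Agent.H50.RatTwo.card_le_of_normalRank hp h3 (n ^ m) fun A hAn hA => ?_
  refine gen_abelian hp X A hAn hA _ ?_
  have h1 : 0 < n := (Nat.card_pos).trans_le hn
  exact (Nat.pow_le_pow_left hn _).trans (Nat.pow_le_pow_right h1 hm)

end Pool.Agent.H82.R2
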